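import Pool.Agent.Helper49.LC.St

/-!
Project LC, module LIE: the localized Hamiltonian of an isotropic isotopy.
-/

set_option autoImplicit false

open scoped ContDiff Topology
open MeasureTheory Set Filter

namespace Pool.Agent.Helper6.LC

open Pool.Agent.Helper14.LK Pool.Agent.Helper49.LC
open Pool.Agent.Helper14.LE (hd lt mk StLAG StEXL StIEA StIET)

private theorem fd_slice {V G : Type} [NormedAddCommGroup V] [NormedSpace ℝ V]
    [NormedAddCommGroup G] [NormedSpace ℝ G] {F : ℝ × V → G} (hF : ContDiff ℝ ∞ F) (t : ℝ) (x : V) :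
    HasFDerivAt (fun y => F (t, y)) ((fderiv ℝ F (t, x)).comp (ContinuousLinearMap.inr ℝ ℝ V)) x := by
  have h1 : HasFDerivAt F (fderiv ℝ F (t, x)) (t, x) :=
    ((hF.differentiable (by simp)) (t, x)).hasFDerivAt
  have h2 : HasFDerivAt (fun y : V => ((t, y) : ℝ × V)) (ContinuousLinearMap.inr ℝ ℝ V) x :=
    hasFDerivAt_prodMk_right t x
  exact h1.comp x h2

private theorem d_time {V G : Type} [NormedAddCommGroup V] [NormedSpace ℝ V]
    [NormedAddCommGroup G] [NormedSpace ℝ G] {F : ℝ × V → G} (hF : ContDiff ℝ ∞ F) (t : ℝ) (x : V) :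
    HasDerivAt (fun s => F (s, x)) (fderiv ℝ F (t, x) (1, 0)) t := by
  have h1 : HasFDerivAt F (fderiv ℝ F (t, x)) (t, x) :=
    ((hF.differentiable (by simp)) (t, x)).hasFDerivAt
  have h2 : HasDerivAt (fun s : ℝ => ((s, x) : ℝ × V)) (1, 0) t :=
    (hasDerivAt_id t).prodMk (hasDerivAt_const t x)
  exact h1.comp_hasDerivAt t h2

private theorem smooth_fderiv {V G : Type} [NormedAddCommGroup V] [NormedSpace ℝ V]
    [NormedAddCommGroup G] [NormedSpace ℝ G] {F : V → G} (hF : ContDiff ℝ ∞ F) :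
    ContDiff ℝ ∞ (fderiv ℝ F) := hF.fderiv_right (m := ∞) (by simp)

/-- the symplectic gradient, as a linear map of the differential -/
private noncomputable def RZ (n : ℕ) : (WW n →L[ℝ] ℝ) →L[ℝ] WW n :=
  LinearMap.toContinuousLinearMap
    { toFun := fun l => (WithLp.toLp 2 (fun i => l (0, EuclideanSpace.single i 1)),
        -WithLp.toLp 2 (fun i => l (EuclideanSpace.single i 1, 0)))
      map_add' := fun l m => by
        refine Prod.ext ?_ ?_
        · ext i; simp
        · ext i; simp; ring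
      map_smul' := fun r l => by
        refine Prod.ext ?_ ?_
        · ext i; simp
        · ext i; simp }

private theorem om_RZ {n : ℕ} (l : WW n →L[ℝ] ℝ) (b : WW n) : om (RZ n l) b = l b := by
  have h1 : ∀ y : EE n, y = ∑ i, y i • EuclideanSpace.single i (1 : ℝ) := by
    intro y
    ext j
    simp [Pi.single_apply]
  have h2 : l (0, b.2) = ∑ i, b.2 i * l (0, EuclideanSpace.single i 1) := by
    have e : ((0, b.2) : WW n) = ∑ i, b.2 i • ((0, EuclideanSpace.single i 1) : WW n) := by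
      refine Prod.ext ?_ ?_
      · simp [Prod.fst_sum]
      · rw [Prod.snd_sum]
        simpa using h1 b.2
    rw [e, map_sum]
    exact Finset.sum_congr rfl fun i _ => by rw [map_smul, smul_eq_mul]
  have h3 : l (b.1, 0) = ∑ i, b.1 i * l (EuclideanSpace.single i 1, 0) := by
    have e : ((b.1, 0) : WW n) = ∑ i, b.1 i • ((EuclideanSpace.single i 1, 0) : WW n) := by
      refine Prod.ext ?_ ?_
      · rw [Prod.fst_sum]
        simpa using h1 b.1
      · simp [Prod.snd_sum]
    rw [e, map_sum]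
    exact Finset.sum_congr rfl fun i _ => by rw [map_smul, smul_eq_mul]
  have h4 : l b = l (b.1, 0) + l (0, b.2) := by
    rw [← map_add]
    simp
  have e1 : (RZ n l).1 = WithLp.toLp 2 (fun i => l (0, EuclideanSpace.single i 1)) := rfl
  have e2 : (RZ n l).2 = -WithLp.toLp 2 (fun i => l (EuclideanSpace.single i 1, 0)) := rfl
  rw [h4, h2, h3, om, e1, e2, inner_neg_left]
  simp only [PiLp.inner_apply, RCLike.inner_apply, conj_trivial]
  ring

/-- the outside of a ball is preconnected in dimension at least two -/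
private theorem preconn {V : Type} [NormedAddCommGroup V] [NormedSpace ℝ V]
    (h2 : 1 < Module.rank ℝ V) (R : ℝ) (hR : 0 < R) : IsPreconnected {v : V | R < ‖v‖} := by
  have h0 : IsPreconnected ({0}ᶜ : Set V) := (isConnected_compl_singleton_of_one_lt_rank h2 0).isPreconnected
  have himg : {v : V | R < ‖v‖} = (fun v : V => ((‖v‖ + R) / ‖v‖) • v) '' ({0}ᶜ : Set V) := by
    ext w
    constructor
    · intro hw
      have hw' : R < ‖w‖ := hw
      have hwp : 0 < ‖w‖ := lt_trans hR hw'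
      have hd : 0 < ‖w‖ - R := sub_pos.mpr hw'
      have hn : ‖((‖w‖ - R) / ‖w‖) • w‖ = ‖w‖ - R := by
        rw [norm_smul, Real.norm_eq_abs, abs_of_pos (div_pos hd hwp)]
        field_simp
      refine ⟨((‖w‖ - R) / ‖w‖) • w, ?_, ?_⟩
      · intro h
        have h' : ((‖w‖ - R) / ‖w‖) • w = 0 := h
        rw [h', norm_zero] at hn
        linarith
      · show ((‖((‖w‖ - R) / ‖w‖) • w‖ + R) / ‖((‖w‖ - R) / ‖w‖) • w‖) • (((‖w‖ - R) / ‖w‖) • w) = w
        rw [hn, smul_smul]
        have : (‖w‖ - R + R) / (‖w‖ - R) * ((‖w‖ - R) / ‖w‖) = 1 := by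
          field_simp
          ring
        rw [this, one_smul]
    · rintro ⟨v, hv, rfl⟩
      have hv0 : v ≠ 0 := hv
      have hvp : 0 < ‖v‖ := norm_pos_iff.mpr hv0
      show R < ‖((‖v‖ + R) / ‖v‖) • v‖
      rw [norm_smul, Real.norm_eq_abs, abs_of_pos (div_pos (by linarith) hvp)]
      have : (‖v‖ + R) / ‖v‖ * ‖v‖ = ‖v‖ + R := by field_simp
      rw [this]
      linarith
  rw [himg]
  apply h0.image
  intro v hv
  have hv0 : v ≠ 0 := hv
  have hvn : ‖v‖ ≠ 0 := norm_ne_zero_iff.mpr hv0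
  apply ContinuousAt.continuousWithinAt
  apply ContinuousAt.smul _ continuousAt_id
  exact (continuous_norm.continuousAt.add continuousAt_const).div continuous_norm.continuousAt hvn


/-- **LIE**. -/
theorem hLIE (hIEA : StIEA) (hLAG : StLAG) : StLIE := by
  intro n hn ι R r hR0 hRr hι hiso himm hinj hstd hin htime
  obtain ⟨H₀, X₀, u₀, hH₀, hH₀c, hX₀, hX₀c, hu₀, hu₀c, hX₀H, hX₀ι⟩ :=
    hIEA n hn ι R hι hiso himm hinj hstd htime
  obtain ⟨F, hFdef⟩ : ∃ F, F = Function.uncurry ι := ⟨_, rfl⟩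
  rw [← hFdef] at hι
  have hF : ∀ t x, F (t, x) = ι t x := fun t x => by rw [hFdef]; rfl
  have hFt : ∀ t, (fun y => F (t, y)) = ι t := fun t => funext fun x => hF t x
  have fdx : ∀ t x, HasFDerivAt (ι t) ((fderiv ℝ F (t, x)).comp
      (ContinuousLinearMap.inr ℝ ℝ (EE n))) x := by
    intro t x
    have h := fd_slice hι t x
    rwa [hFt t] at h
  have fdx' : ∀ t x u, fderiv ℝ (ι t) x u = fderiv ℝ F (t, x) (0, u) := by
    intro t x u
    rw [(fdx t x).fderiv]
    simp
  have fdt : ∀ t x, HasDerivAt (fun s => ι s x) (fderiv ℝ F (t, x) (1, 0)) t := by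
    intro t x
    have h := d_time hι t x
    simpa only [hF] using h
  have hiso' : ∀ q u v, om (fderiv ℝ F q (0, u)) (fderiv ℝ F q (0, v)) = 0 := by
    intro q u v
    rw [← fdx' q.1 q.2 u, ← fdx' q.1 q.2 v]
    exact hiso q.1 q.2 u v
  have hιs : ∀ t, ContDiff ℝ ∞ (ι t) := by
    intro t
    rw [← hFt t]
    exact hι.comp (contDiff_const.prodMk contDiff_id)
  -- the time derivative vanishes
  have dt0 : ∀ t x, R ≤ ‖x‖ → fderiv ℝ F (t, x) (1, 0) = 0 := by
    intro t x hx
    have e : (fun s => ι s x) = fun _ => ((x, 0) : WW n) := funext fun s => hstd s x hx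
    have h := (fdt t x).deriv
    rw [e] at h
    rw [← h]
    simp
  have dt1 : ∀ t x, t ∉ Set.Icc (0 : ℝ) 1 → fderiv ℝ F (t, x) (1, 0) = 0 := by
    intro t x ht
    rw [← (fdt t x).deriv]
    exact htime t x ht
  -- the cut-off Hamiltonian
  obtain ⟨χ, hχs, hχ1, hχ0⟩ : ∃ χ : WW n → ℝ, ContDiff ℝ ∞ χ ∧
      (∀ w, ‖w‖ < (2 * R + r) / 3 → χ w = 1) ∧ ∀ w, (R + 2 * r) / 3 ≤ ‖w‖ → χ w = 0 := by
    let f : ContDiffBump (0 : WW n) := ⟨(2 * R + r) / 3, (R + 2 * r) / 3, by linarith, by linarith⟩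
    refine ⟨f, f.contDiff, fun w hw => ?_, fun w hw => ?_⟩
    · exact f.one_of_mem_closedBall (by
        rw [mem_closedBall_zero_iff]
        exact hw.le)
    · exact f.zero_of_le_dist (by
        rw [dist_zero_right]
        exact hw)
  obtain ⟨H, hHdef⟩ : ∃ H : ℝ × WW n → ℝ, H = fun q => χ q.2 * Function.uncurry H₀ q := ⟨_, rfl⟩
  have hHa : ∀ t w, H (t, w) = χ w * H₀ t w := fun t w => by rw [hHdef]; rfl
  have hH : ContDiff ℝ ∞ H := by
    rw [hHdef]
    exact (hχs.comp contDiff_snd).mul hH₀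
  have hHc : HasCompactSupport H := by
    rw [hHdef]
    exact hH₀c.mul_left
  -- the vector field
  obtain ⟨X, hX⟩ : ∃ X : ℝ × WW n → WW n, X = fun q =>
      RZ n ((fderiv ℝ H q).comp (ContinuousLinearMap.inr ℝ ℝ (WW n))) := ⟨_, rfl⟩
  have hXs : ContDiff ℝ ∞ X := by
    rw [hX]
    exact (RZ n).contDiff.comp ((smooth_fderiv hH).clm_comp contDiff_const)
  have hXc : HasCompactSupport X := by
    rw [hX]
    refine (hHc.fderiv (𝕜 := ℝ)).comp_left
      (g := fun l : (ℝ × WW n) →L[ℝ] ℝ => RZ n (l.comp (ContinuousLinearMap.inr ℝ ℝ (WW n)))) ?_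
    simp
  have hXom : ∀ t w b, om (X (t, w)) b = fderiv ℝ (fun w => H (t, w)) w b := by
    intro t w b
    rw [hX, om_RZ, (fd_slice hH t w).fderiv]
  have hX0 : ∀ t w, r ≤ ‖w‖ → X (t, w) = 0 := by
    intro t w hw
    refine eq_of_om_eq fun b => ?_
    rw [hXom, om_zero_left]
    have h1 : (fun w => H (t, w)) =ᶠ[𝓝 w] fun _ => (0 : ℝ) := by
      have h2 : ∀ᶠ w' in 𝓝 w, (R + 2 * r) / 3 < ‖w'‖ :=
        (isOpen_lt continuous_const continuous_norm).eventually_mem
          (show (R + 2 * r) / 3 < ‖w‖ by linarith)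
      filter_upwards [h2] with w' hw'
      rw [hHa, hχ0 w' hw'.le, zero_mul]
    rw [h1.fderiv_eq]
    simp
  -- the old Hamiltonian along the isotopy
  have hg : ∀ t x v, om (fderiv ℝ F (t, x) (1, 0)) (fderiv ℝ F (t, x) (0, v)) =
      fderiv ℝ (fun y => H₀ t (ι t y)) x v := by
    intro t x v
    have h1 : HasFDerivAt (H₀ t) (fderiv ℝ (H₀ t) (ι t x)) (ι t x) := by
      have h0 : ContDiff ℝ ∞ (H₀ t) := hH₀.comp (contDiff_const.prodMk contDiff_id)
      exact ((h0.differentiable (by simp)) _).hasFDerivAt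
    have h2 := h1.comp x (fdx t x)
    have h3 : fderiv ℝ (fun y => H₀ t (ι t y)) x v =
        fderiv ℝ (H₀ t) (ι t x) (fderiv ℝ F (t, x) (0, v)) := by
      have h4 : HasFDerivAt (fun y => H₀ t (ι t y)) _ x := h2
      rw [h4.fderiv]
      simp
    rw [h3, ← hX₀H t (ι t x), hX₀ι t x, om_add_left, (fdt t x).deriv, fdx', hiso' (t, x), add_zero]
  -- it vanishes outside of the ball
  have hrank : 1 < Module.rank ℝ (EE n) := by
    have h1 : ((1 : ℕ) : Cardinal) < Module.rank ℝ (EE n) := by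
      rw [← Module.finrank_eq_rank]
      have : Module.finrank ℝ (EE n) = n := by simp
      exact_mod_cast (by omega : 1 < Module.finrank ℝ (EE n))
    simpa using h1
  have hopen : IsOpen {v : EE n | R < ‖v‖} := isOpen_lt continuous_const continuous_norm
  have hout : ∀ t y, R < ‖y‖ → H₀ t (ι t y) = 0 := by
    intro t y hy
    obtain ⟨B, hB⟩ : ∃ B : ℝ, ∀ w : WW n, B ≤ ‖w‖ → H₀ t w = 0 := by
      obtain ⟨B, hB⟩ := hH₀c.isCompact.isBounded.subset_closedBall (0 : ℝ × WW n)
      refine ⟨B + 1, fun w hw => ?_⟩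
      have h1 : (t, w) ∉ tsupport (Function.uncurry H₀) := by
        intro h
        have h2 := hB h
        rw [mem_closedBall_zero_iff] at h2
        have h3 : ‖w‖ ≤ ‖((t, w) : ℝ × WW n)‖ := by
          rw [Prod.norm_mk t w]
          exact le_max_right _ _
        linarith
      have h4 : Function.uncurry H₀ (t, w) = 0 := image_eq_zero_of_notMem_tsupport h1
      exact h4
    have hnt : Nontrivial (EE n) := Module.nontrivial_of_finrank_pos (R := ℝ) (by
      have : Module.finrank ℝ (EE n) = n := by simp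
      omega)
    obtain ⟨y₁, hy₁⟩ := exists_norm_eq (EE n) (c := max (R + 1) B)
      (le_trans (by linarith) (le_max_left _ _))
    have hy1R : R < ‖y₁‖ := by
      rw [hy₁]
      exact lt_of_lt_of_le (by linarith) (le_max_left _ _)
    have hgs : ContDiff ℝ ∞ (fun y => H₀ t (ι t y)) := by
      have h0 : ContDiff ℝ ∞ (H₀ t) := hH₀.comp (contDiff_const.prodMk contDiff_id)
      exact h0.comp (hιs t)
    have h5 : H₀ t (ι t y) = H₀ t (ι t y₁) := by
      refine hopen.is_const_of_fderiv_eq_zero (𝕜 := ℝ) (f := fun y => H₀ t (ι t y))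
        (preconn hrank R hR0) (hgs.differentiable (by simp)).differentiableOn ?_ hy hy1R
      intro w hw
      have hw' : R < ‖w‖ := hw
      ext v
      rw [← hg t w v, dt0 t w hw'.le]
      simp
    rw [h5, hstd t y₁ hy1R.le]
    refine hB _ ?_
    rw [Prod.norm_mk, norm_zero, max_eq_left (norm_nonneg _), hy₁]
    exact le_max_right _ _
  -- the new Hamiltonian agrees with the old one along the isotopy
  have hev : ∀ t x, (fun y => H (t, ι t y)) =ᶠ[𝓝 x] fun y => H₀ t (ι t y) := by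
    intro t x
    rcases le_or_gt ‖x‖ R with hx | hx
    · have h1 : ‖ι t x‖ < (2 * R + r) / 3 := by
        have := hin t x hx
        linarith
      have h2 : ∀ᶠ y in 𝓝 x, ‖ι t y‖ < (2 * R + r) / 3 :=
        (isOpen_lt (continuous_norm.comp (hιs t).continuous) continuous_const).eventually_mem h1
      filter_upwards [h2] with y hy
      rw [hHa, hχ1 _ hy, one_mul]
    · filter_upwards [hopen.eventually_mem hx] with y hy
      rw [hHa, hout t y hy, mul_zero]
  -- the embedding
  obtain ⟨j, hj⟩ : ∃ j : ℝ × EE n → ℝ × WW n, j = fun q => (q.1, F q) := ⟨_, rfl⟩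
  have hjs : ContDiff ℝ ∞ j := by
    rw [hj]
    exact contDiff_fst.prodMk hι
  have hjn : ∀ q, R ≤ ‖q‖ → ‖q‖ ≤ ‖j q‖ := by
    rintro ⟨t, x⟩ hq
    rw [hj]
    rw [Prod.norm_mk] at hq ⊢
    rw [Prod.norm_mk]
    rcases le_total ‖x‖ ‖t‖ with h | h
    · rw [max_eq_left h]
      exact le_max_left _ _
    · rw [max_eq_right h] at hq ⊢
      refine le_trans ?_ (le_max_right _ _)
      rw [hF, hstd t x hq, Prod.norm_mk]
      exact le_max_left _ _
  have hjp : Filter.Tendsto j (Filter.cocompact (ℝ × EE n)) (Filter.cocompact (ℝ × WW n)) := by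
    rw [← Metric.cobounded_eq_cocompact, ← Metric.cobounded_eq_cocompact,
      ← tendsto_norm_atTop_iff_cobounded]
    refine tendsto_atTop_mono' _ ?_ tendsto_norm_cobounded_atTop
    filter_upwards [(tendsto_norm_cobounded_atTop (E := ℝ × EE n)).eventually_ge_atTop R] with q hq
    exact hjn q hq
  -- the tangential correction
  obtain ⟨A, hA⟩ : ∃ A : ℝ × EE n → (EE n →L[ℝ] WW n), A = fun q =>
      (fderiv ℝ F q).comp (ContinuousLinearMap.inr ℝ ℝ (EE n)) := ⟨_, rfl⟩
  have hAs : ContDiff ℝ ∞ A := by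
    rw [hA]
    exact (smooth_fderiv hι).clm_comp contDiff_const
  have hAa : ∀ q u, A q u = fderiv ℝ F q (0, u) := by
    intro q u
    rw [hA]
    simp
  have hAi : ∀ q u, A q u = 0 → u = 0 := by
    intro q u h
    rw [hAa, ← fdx' q.1 q.2] at h
    exact himm q.1 q.2 u h
  have hbs : ContDiff ℝ ∞ (fun q : ℝ × EE n => X (j q) - fderiv ℝ F q (1, 0)) :=
    (hXs.comp hjs).sub ((smooth_fderiv hι).clm_apply contDiff_const)
  have hjj : ∀ t x, j (t, x) = (t, ι t x) := by
    intro t x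
    rw [hj]
    simp only [hF]
  have hbA : ∀ q u, om (X (j q) - fderiv ℝ F q (1, 0)) (A q u) = 0 := by
    rintro ⟨t, x⟩ u
    rw [om_sub_left, hAa, hjj, hXom, hg t x u]
    have h1 : HasFDerivAt (fun w => H (t, w)) (fderiv ℝ (fun w => H (t, w)) (ι t x)) (ι t x) :=
      (fd_slice hH t (ι t x)).differentiableAt.hasFDerivAt
    have h2 := h1.comp x (fdx t x)
    have h3 : HasFDerivAt (fun y => H (t, ι t y)) _ x := h2
    rw [← (hev t x).fderiv_eq, h3.fderiv]
    simp
  obtain ⟨v, hv, hvb⟩ := hLAG.2.1 n (ℝ × EE n) A (fun q => X (j q) - fderiv ℝ F q (1, 0)) hAs hbs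
    (fun q u v => by rw [hAa, hAa]; exact hiso' q u v) hAi hbA
  have hvc : HasCompactSupport v := by
    have h1 : j ⁻¹' (tsupport X)ᶜ ∈ Filter.cocompact (ℝ × EE n) :=
      hjp (hXc.isCompact.compl_mem_cocompact)
    obtain ⟨C, hC, hCj⟩ := Filter.mem_cocompact.1 h1
    refine HasCompactSupport.intro (hC.union ((isCompact_Icc (a := (0 : ℝ)) (b := 1)).prod
      (isCompact_closedBall (0 : EE n) R))) ?_
    rintro ⟨t, x⟩ hq
    rw [Set.mem_union, not_or] at hq
    have h2 : X (j (t, x)) = 0 := by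
      have h3 : (t, x) ∈ j ⁻¹' (tsupport X)ᶜ := hCj hq.1
      exact image_eq_zero_of_notMem_tsupport h3
    have h4 : fderiv ℝ F (t, x) (1, 0) = 0 := by
      by_cases ht : t ∈ Set.Icc (0 : ℝ) 1
      · refine dt0 t x ?_
        by_contra hx
        exact hq.2 ⟨ht, by simpa using (not_le.1 hx).le⟩
      · exact dt1 t x ht
    refine hAi (t, x) _ ?_
    rw [← hvb (t, x), h2, h4, sub_zero]
  refine ⟨fun t w => H (t, w), fun t w => X (t, w), fun t x => v (t, x), hH, hXs, hXc, hv, hvc,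
    hXom, hX0, ?_⟩
  intro t x
  have h1 := hvb (t, x)
  rw [hjj, hAa, ← fdx', ← (fdt t x).deriv] at h1
  rw [← h1]
  abel

end Pool.Agent.Helper6.LC
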